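import Mathlib
import Pool.Agent.MP_833094_lc.En.Suf
import Pool.Agent.MP_833094_lc.En.Cor

open Pool.Agent.MP_833094_lc

/-- The sets of reals that carry an oracle above the real Halting problem. -/
theorem Pool.Agent.Results.MP_833094_lc.EntrySets.result (E : Set ℝ) :
    (∃ A : Set (List ℝ), (∀ a ∈ A, ∀ e ∈ a, e ∈ E) ∧ Reduces Halting A) ↔
      ∃ c : Finset ℝ, ∀ s : ℝ, Transcendental (Subfield.closure (c : Set ℝ)) s →
        ∃ e ∈ E, e ∈ Subfield.closure (insert s (c : Set ℝ)) ∧
          e ∉ Subfield.closure (c : Set ℝ) :=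
  ⟨fun ⟨_, a, b⟩ => En.necessary a b, fun ⟨_, h⟩ => En.sufficient h Halting⟩

namespace Pool.Agent.Results.MP_833094_lc.EntrySets

variable {E : Set ℝ} {A : Set (List ℝ)}

/-- The entries of an oracle above the Halting problem do not form a null set. -/
theorem case_null (hA : ∀ a ∈ A, ∀ e ∈ a, e ∈ E) (h : MeasureTheory.volume E = 0) :
    ¬ Reduces Halting A := fun g => En.not_null hA g h

/-- They do not form a meagre set. -/
theorem case_meagre (hA : ∀ a ∈ A, ∀ e ∈ a, e ∈ E) (h : IsMeagre E) : ¬ Reduces Halting A :=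
  fun g => En.not_meagre hA g h

/-- There are continuum many of them. -/
theorem case_small (hA : ∀ a ∈ A, ∀ e ∈ a, e ∈ E) (h : Cardinal.mk E < Cardinal.continuum) :
    ¬ Reduces Halting A := fun g => h.ne (En.not_small hA g)

/-- Every set that meets all cosets of the rationals carries such an oracle. -/
theorem case_vitali (h : ∀ s : ℝ, ∃ q : ℚ, s + q ∈ E) :
    ∃ A : Set (List ℝ), (∀ a ∈ A, ∀ e ∈ a, e ∈ E) ∧ Reduces Halting A :=
  (result E).2 ⟨∅, fun s t => (h s).elim fun q hq => ⟨_, hq,
    add_mem (Subfield.subset_closure (Set.mem_insert _ _)) (SubfieldClass.ratCast_mem _ q),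
    fun g => t (isAlgebraic_algebraMap (⟨s, by
      simpa only [add_sub_cancel_right] using sub_mem g (SubfieldClass.ratCast_mem _ q)⟩ :
        Subfield.closure ((∅ : Finset ℝ) : Set ℝ)))⟩⟩

end Pool.Agent.Results.MP_833094_lc.EntrySets
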