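import Mathlib
import Pool.Agent.MP_833094_lc.Line

open Pool.Agent.MP_833094_lc

theorem Pool.Agent.Results.MP_833094_lc.LineOracle.result (S : Set (List ℝ)) :
    ∃ B : Set ℝ, Reduces S ((fun a => [a]) '' B) :=
  line_oracle S
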