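import Mathlib
import Pool.Agent.MP_833094_lc.Cor

open Pool.Agent.MP_833094_lc

theorem Pool.Agent.Results.MP_833094_lc.RankTheorem.result (K : Subfield ℝ)
    (hK : (K : Set ℝ).Countable) (n : ℕ) (A : Set (List ℝ)) (hT : Tame A) (hR : RankLE K n A) :
    ¬ Reduces Halting A :=
  rank_thm K hK n A hT hR

namespace Pool.Agent.Results.MP_833094_lc.RankTheorem

/-- The case `n = 0` contains all countable oracles. -/
theorem case_countable (A : Set (List ℝ)) (h : A.Countable) : ¬ Reduces Halting A := by
  obtain ⟨K, a, b⟩ := rank_of_countable h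
  exact result K a 0 A (tame_of_countable h) b

/-- Tame oracles of bounded dimension. -/
theorem case_dim (n : ℕ) (A : Set (List ℝ)) (hT : Tame A) (h : ∀ a ∈ A, a.length ≤ n) :
    ¬ Reduces Halting A :=
  result (algebraMap ℚ ℝ).fieldRange (Set.countable_range _) n A hT (rank_of_length _ h)

/-- Subsets of the line with the Baire property. -/
theorem case_line (B : Set ℝ) (h : BaireMeasurableSet B) :
    ¬ Reduces Halting ((fun a => [a]) '' B) :=
  case_dim 1 _ (tame_of_line h) (by rintro _ ⟨a, -, rfl⟩; rfl)

/-- Halting sets of bounded rank. -/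
theorem case_halting (K : Subfield ℝ) (hK : (K : Set ℝ).Countable) (n : ℕ) (p : Prog)
    (hR : RankLE K n {x | ∃ s, Eval ∅ p (init x) s}) :
    ¬ Reduces Halting {x | ∃ s, Eval ∅ p (init x) s} :=
  result K hK n _ (tame_of_borel (borel_halts p)) hR

end Pool.Agent.Results.MP_833094_lc.RankTheorem
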